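import Mathlib

/-!
# The conjectured bound for the common value of `σ₃ = σ_n` fails for every `n ≥ 11`
-/

namespace Pool.Agent.Results.MP_c4e411_nt.SextBoundFails

/-- The `k`-th elementary symmetric polynomial of the entries of the tuple `x`:
the sum, over all `k`-element sets of indices, of the product of the corresponding entries. -/
def sigma {n : ℕ} (k : ℕ) (x : Fin n → ℕ) : ℕ :=
  ∑ s ∈ (Finset.univ : Finset (Fin n)).powersetCard k, ∏ i ∈ s, x i

theorem esymm_cons (a : ℕ) (s : Multiset ℕ) (k : ℕ) :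
    (a ::ₘ s).esymm (k + 1) = s.esymm (k + 1) + a * s.esymm k := by
  simp only [Multiset.esymm, Multiset.powersetCard_cons, Multiset.map_add, Multiset.sum_add,
    Multiset.map_map, Function.comp_def, Multiset.prod_cons, Multiset.sum_map_mul_left]

theorem esymm_zero' (s : Multiset ℕ) : s.esymm 0 = 1 := by
  simp [Multiset.esymm]

theorem esymm_one_rep (m : ℕ) : ((Multiset.replicate m 1 : Multiset ℕ)).esymm 1 = m := by
  induction m with
  | zero => simp [Multiset.esymm, Multiset.powersetCard_zero_right]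
  | succ m ih => rw [Multiset.replicate_succ, esymm_cons, ih, esymm_zero']

theorem esymm_two_rep (m : ℕ) :
    2 * ((Multiset.replicate m 1 : Multiset ℕ)).esymm 2 + m = m ^ 2 := by
  induction m with
  | zero => simp [Multiset.esymm, Multiset.powersetCard_zero_right]
  | succ m ih => rw [Multiset.replicate_succ, esymm_cons, esymm_one_rep]; nlinarith [ih]

theorem esymm_three_rep (m : ℕ) :
    6 * ((Multiset.replicate m 1 : Multiset ℕ)).esymm 3 + 3 * m ^ 2 = m ^ 3 + 2 * m := by
  induction m with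
  | zero => simp [Multiset.esymm, Multiset.powersetCard_zero_right]
  | succ m ih =>
    rw [Multiset.replicate_succ, esymm_cons]
    have := esymm_two_rep m
    nlinarith [ih]

theorem result : ∀ n : ℕ, 11 ≤ n → ∃ x : Fin n → ℕ,
    Monotone x ∧ (∀ i, 0 < x i) ∧ sigma 3 x = sigma n x ∧
    (3021 * (n : ℚ) ^ 6 - 77575 * (n : ℚ) ^ 5 + 920361 * (n : ℚ) ^ 4 - 6235705 * (n : ℚ) ^ 3
      + 24764202 * (n : ℚ) ^ 2 - 53664304 * (n : ℚ) + 48986640) / 12 < (sigma n x : ℚ) := by
  intro n hn
  obtain ⟨m, rfl⟩ : ∃ m, n = m + 11 := ⟨n - 11, by omega⟩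
  -- `M = n - 4` ones, then `2`, `b`, `c`, `y`
  set M : ℕ := m + 7 with hM
  obtain ⟨c, hc⟩ : ∃ c, 2 * c = (3 * M + 7) * (M + 2) := by
    have : 2 ∣ (3 * M + 7) * (M + 2) := by
      rcases Nat.even_or_odd M with h | h
      · obtain ⟨k, hk⟩ := h
        exact ⟨(3 * M + 7) * (k + 1), by rw [hk]; ring⟩
      · obtain ⟨k, hk⟩ := h
        exact ⟨(3 * k + 5) * (M + 2), by rw [hk]; ring⟩
    obtain ⟨c, hc⟩ := this
    exact ⟨c, hc.symm⟩
  set b : ℕ := M + 3 with hb
  set y : ℕ := (c ::ₘ b ::ₘ 2 ::ₘ Multiset.replicate M 1 : Multiset ℕ).esymm 3 with hy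
  have h1 := esymm_one_rep M
  have h2 := esymm_two_rep M
  have h3 := esymm_three_rep M
  have hcval : (2 : ℤ) * c = (3 * M + 7) * (M + 2) := by exact_mod_cast hc
  -- value of `y`
  have hyval : (6 : ℤ) * y = (M ^ 3 - 3 * M ^ 2 + 2 * M) + 3 * (M ^ 2 - M) * (2 + b + c)
      + 6 * M * (2 * b + 2 * c + b * c) + 6 * (2 * b * c) := by
    rw [hy]
    simp only [esymm_cons, esymm_zero', h1]
    have h2' : (2 : ℤ) * ((Multiset.replicate M 1 : Multiset ℕ)).esymm 2 = M ^ 2 - M := by
      have := congrArg (Nat.cast : ℕ → ℤ) h2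
      push_cast at this
      linarith
    have h3' : (6 : ℤ) * ((Multiset.replicate M 1 : Multiset ℕ)).esymm 3
        = M ^ 3 + 2 * M - 3 * M ^ 2 := by
      have := congrArg (Nat.cast : ℕ → ℤ) h3
      push_cast at this
      linarith
    push_cast
    linear_combination h3' + 3 * (2 + b + c : ℤ) * h2'
  have hbz : (b : ℤ) = M + 3 := by rw [hb]; push_cast; ring
  have hMz : (M : ℤ) = m + 7 := by rw [hM]; push_cast; ring
  -- ordering
  have hbc : b ≤ c := by
    have : 2 * b ≤ 2 * c := by rw [hc, hb]; nlinarith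
    omega
  have hcy : c ≤ y := by
    have h : (6 : ℤ) * c ≤ 6 * y := by
      rw [hyval, hbz]
      have hc0 : (0 : ℤ) ≤ c := by positivity
      have hM7 : (7 : ℤ) ≤ M := by rw [hMz]; linarith [(by positivity : (0 : ℤ) ≤ m)]
      nlinarith [mul_nonneg hc0 (by linarith : (0 : ℤ) ≤ M), mul_nonneg (by nlinarith : (0 : ℤ) ≤ (M : ℤ) ^ 2 - M) hc0,
        mul_nonneg (mul_nonneg hc0 (by linarith : (0 : ℤ) ≤ M)) (by linarith : (0 : ℤ) ≤ M),
        sq_nonneg ((M : ℤ)), mul_nonneg (sq_nonneg (M : ℤ)) (by linarith : (0 : ℤ) ≤ M - 3)]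
    have h' : 6 * c ≤ 6 * y := by exact_mod_cast h
    omega
  -- the list
  set L : List ℕ := List.replicate M 1 ++ [2, b, c, y] with hL
  have hlen : L.length = m + 11 := by simp [hL, hM]
  have hLm : (L : Multiset ℕ) = y ::ₘ c ::ₘ b ::ₘ 2 ::ₘ Multiset.replicate M 1 := by
    have : (L : Multiset ℕ) = Multiset.replicate M 1 + (2 ::ₘ b ::ₘ c ::ₘ y ::ₘ 0) := by
      rw [hL, ← Multiset.coe_add, Multiset.coe_replicate]
      rfl
    rw [this]
    ext a
    simp only [Multiset.count_add, Multiset.count_cons, Multiset.count_zero]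
    ring
  have hsorted : L.Pairwise (· ≤ ·) := by
    rw [hL, List.pairwise_append]
    refine ⟨?_, ?_, ?_⟩
    · rw [List.pairwise_replicate]; right; exact le_refl _
    · simp only [List.pairwise_cons, List.mem_cons, List.not_mem_nil, or_false, forall_eq_or_imp,
        forall_eq, false_imp_iff, implies_true, List.Pairwise.nil, and_true]
      refine ⟨⟨by omega, by omega, by omega⟩, ⟨hbc, hbc.trans hcy⟩, hcy⟩
    · intro a ha d hd
      rw [List.mem_replicate] at ha
      simp only [List.mem_cons, List.not_mem_nil, or_false] at hd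
      rcases hd with rfl | rfl | rfl | rfl <;> omega
  have hpos : ∀ a ∈ L, 0 < a := by
    intro a ha
    rw [hL, List.mem_append] at ha
    rcases ha with ha | ha
    · rw [List.mem_replicate] at ha; omega
    · simp only [List.mem_cons, List.not_mem_nil, or_false] at ha
      rcases ha with rfl | rfl | rfl | rfl <;> omega
  refine ⟨fun i => L.get (Fin.cast hlen.symm i), ?_, ?_, ?_⟩
  · intro i j hij
    rcases eq_or_lt_of_le hij with h | h
    · rw [h]
    · exact List.pairwise_iff_get.mp hsorted _ _ (by simpa using h)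
  · intro i
    exact hpos _ (List.get_mem _ _)
  have hmap : (Finset.univ : Finset (Fin (m + 11))).val.map (fun i => L.get (Fin.cast hlen.symm i))
      = (L : Multiset ℕ) := by
    rw [Fin.univ_val_map]
    congr 1
    apply List.ext_get
    · rw [List.length_ofFn, hlen]
    · intro k h1 h2
      rw [List.get_ofFn]
      rfl
  have hsig : ∀ k, sigma k (fun i : Fin (m + 11) => L.get (Fin.cast hlen.symm i))
      = (L : Multiset ℕ).esymm k := by
    intro k
    rw [← hmap, Finset.esymm_map_val]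
    rfl
  have hprod : sigma (m + 11) (fun i : Fin (m + 11) => L.get (Fin.cast hlen.symm i))
      = (L : Multiset ℕ).prod := by
    rw [← hmap]
    unfold sigma
    have : (Finset.univ : Finset (Fin (m + 11))).powersetCard (m + 11) = {Finset.univ} := by
      have h := Finset.powersetCard_self (Finset.univ : Finset (Fin (m + 11)))
      rwa [Finset.card_fin] at h
    rw [this, Finset.sum_singleton]
    rfl
  have hP : (L : Multiset ℕ).prod = y * (c * (b * 2)) := by
    rw [hLm]; simp
  have hS : (L : Multiset ℕ).esymm 3 = y * (c * (b * 2)) := by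
    rw [hLm, esymm_cons, ← hy]
    have key : ((c ::ₘ b ::ₘ 2 ::ₘ Multiset.replicate M 1 : Multiset ℕ).esymm 2 : ℤ) + 1
        = c * (b * 2) := by
      simp only [esymm_cons, esymm_zero', h1]
      have h2' : (2 : ℤ) * ((Multiset.replicate M 1 : Multiset ℕ)).esymm 2 = M ^ 2 - M := by
        have := congrArg (Nat.cast : ℕ → ℤ) h2
        push_cast at this
        linarith
      push_cast
      rw [hbz]
      linarith [h2', hcval]
    have key' : (c ::ₘ b ::ₘ 2 ::ₘ Multiset.replicate M 1 : Multiset ℕ).esymm 2 + 1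
        = c * (b * 2) := by exact_mod_cast key
    rw [← key']
    ring
  refine ⟨?_, ?_⟩
  · rw [hsig, hprod, hP, hS]
  · rw [hprod, hP]
    have hyq : (6 : ℚ) * y = (M ^ 3 - 3 * M ^ 2 + 2 * M) + 3 * (M ^ 2 - M) * (2 + b + c)
      + 6 * M * (2 * b + 2 * c + b * c) + 6 * (2 * b * c) := by exact_mod_cast hyval
    have hcq : (2 : ℚ) * c = (3 * M + 7) * (M + 2) := by exact_mod_cast hcval
    have hbq : (b : ℚ) = M + 3 := by exact_mod_cast hbz
    have hMq : (M : ℚ) = m + 7 := by exact_mod_cast hMz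
    have hcq' : (c : ℚ) = (3 * M + 7) * (M + 2) / 2 := by linarith
    have hyq' : (y : ℚ) = ((M ^ 3 - 3 * M ^ 2 + 2 * M) + 3 * (M ^ 2 - M) * (2 + b + c)
      + 6 * M * (2 * b + 2 * c + b * c) + 6 * (2 * b * c)) / 6 := by linarith
    rw [div_lt_iff₀ (by norm_num : (0 : ℚ) < 12)]
    have hid : ((y * (c * (b * 2)) : ℕ) : ℚ) * 12 =
        (3021 * ((m + 11 : ℕ) : ℚ) ^ 6 - 77575 * ((m + 11 : ℕ) : ℚ) ^ 5
        + 920361 * ((m + 11 : ℕ) : ℚ) ^ 4 - 6235705 * ((m + 11 : ℕ) : ℚ) ^ 3
        + 24764202 * ((m + 11 : ℕ) : ℚ) ^ 2 - 53664304 * ((m + 11 : ℕ) : ℚ) + 48986640)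
        + 81 * ((m + 1) * (m + 2) * (m + 3) * (m + 4) * (m + 5) * (m + 6) * (m + 7)) := by
      push_cast
      rw [hyq', hcq', hbq, hMq]
      ring
    rw [hid]
    have : (0 : ℚ) < 81 * ((m + 1) * (m + 2) * (m + 3) * (m + 4) * (m + 5) * (m + 6) * (m + 7)) := by
      positivity
    linarith

end Pool.Agent.Results.MP_c4e411_nt.SextBoundFails
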